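import Pool.Agent.NL.StmtsA

/-! Row AKB: the `ℓ₁` bounds of the case ALPHA (helper40). -/

set_option autoImplicit false

open Filter Topology

noncomputable section

namespace Pool.Agent.NL.H40

open Pool.Agent Finset

theorem l1_eq (b : ℝ →₀ ℝ) (T : Finset ℝ) (h : b.support ⊆ T) : l1 b = ∑ x ∈ T, |b x| := by
  rw [l1, Finsupp.sum_of_support_subset b h _ (by simp)]

theorem l1_add (b b' : ℝ →₀ ℝ) : l1 (b + b') ≤ l1 b + l1 b' := by
  classical
  rw [l1_eq (b + b') (b.support ∪ b'.support) Finsupp.support_add,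
    l1_eq b (b.support ∪ b'.support) subset_union_left,
    l1_eq b' (b.support ∪ b'.support) subset_union_right, ← sum_add_distrib]
  exact sum_le_sum fun x _ => by rw [Finsupp.add_apply]; exact abs_add_le _ _

theorem l1_smul (r : ℝ) (b : ℝ →₀ ℝ) : l1 (r • b) = |r| * l1 b := by
  rw [l1_eq (r • b) b.support Finsupp.support_smul, l1_eq b b.support subset_rfl, mul_sum]
  exact sum_congr rfl fun x _ => by rw [Finsupp.smul_apply, smul_eq_mul, abs_mul]

theorem l1_sum {ι : Type} (s : Finset ι) (b : ι → ℝ →₀ ℝ) :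
    l1 (∑ i ∈ s, b i) ≤ ∑ i ∈ s, l1 (b i) := by
  classical
  induction s using Finset.induction_on with
  | empty => simp [l1]
  | insert i s hi ih =>
    rw [sum_insert hi, sum_insert hi]
    exact (l1_add _ _).trans (by linarith)

theorem l1_pb {p : ℝ →₀ ℝ} (hp : Pb p) : l1 p = 1 := by
  rw [← hp.2, l1]
  exact Finsupp.sum_congr fun x _ => abs_of_nonneg (hp.1 x)

theorem sum_pb {p : ℝ →₀ ℝ} (hp : Pb p) : ∑ x ∈ p.support, |p x| = 1 := by
  rw [← l1_eq p p.support subset_rfl, l1_pb hp]

theorem norm_V {G : ℝ → Z} (hG : ∀ w, ‖G w‖ ≤ 1) (b : ℝ →₀ ℝ) : ‖V G b‖ ≤ l1 b := by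
  rw [V, Finsupp.linearCombination_apply, Finsupp.sum, l1, Finsupp.sum]
  refine norm_sum_le_of_le _ fun x _ => ?_
  rw [norm_smul, Real.norm_eq_abs]
  exact mul_le_of_le_one_right (abs_nonneg _) (hG x)

theorem akb (gnd : GndStmt) (low : LowStmt) : AkbStmt := by
  classical
  intro X _ _ f F G Ψ a ε n u q W E N ϖ J φ T y hS c c' α z
  obtain ⟨hcrv, ha, -, -, hcfg, hu, hmv⟩ := hS
  set b := bo n u c q + α • q u + ∑ i ∈ range N, c' i • gq (q u) φ i with hb
  set R := (q u).support with hR
  -- the sets `T i` increase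
  have hT : ∀ i j, i ≤ j → j ≤ N → T i ⊆ T j := by
    intro i j hij
    induction j, hij using Nat.le_induction with
    | base => intro _; exact subset_rfl
    | succ j hj ih =>
      intro h
      refine (ih (by omega)).trans ?_
      rw [hmv.suc j (by omega)]
      exact subset_union_left
  have hWT : ∀ i, i ≤ N → W ⊆ T i := fun i hi => hmv.WT.trans (hT 0 i (Nat.zero_le _) hi)
  have hRW : R ⊆ W := hcfg.sub u hu
  have hST : ∀ i, i < N → R.image (φ i) ⊆ T (i + 1) := by
    intro i hi
    rw [hmv.suc i hi]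
    exact (image_subset_image subset_union_left).trans subset_union_right
  have hSn : ∀ i, i < N → ∀ x ∈ R.image (φ i), x ∉ T i := by
    intro i hi x hx
    obtain ⟨r, hr, rfl⟩ := mem_image.mp hx
    exact hmv.new i hi r (mem_union_left _ hr)
  have hgs : ∀ i, (gq (q u) φ i).support ⊆ R.image (φ i) := fun i => Finsupp.mapDomain_support
  have hg0 : ∀ i, ∀ x, x ∉ R.image (φ i) → gq (q u) φ i x = 0 := by
    intro i x hx
    exact Finsupp.notMem_support_iff.mp fun h => hx (hgs i h)
  have hbo : ∀ x, bo n u c q x = ∑ i ∈ (range n).erase u, c i * q i x := by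
    intro x
    rw [bo, Finsupp.finsetSum_apply]
    rfl
  have hbx : ∀ x, b x = ∑ i ∈ (range n).erase u, c i * q i x + α * q u x +
      ∑ i ∈ range N, c' i * gq (q u) φ i x := by
    intro x
    rw [hb, Finsupp.add_apply, Finsupp.add_apply, hbo, Finsupp.finsetSum_apply]
    rfl
  have hq0 : ∀ i, i < n → ∀ x, x ∉ W → q i x = 0 := by
    intro i hi x hx
    exact Finsupp.notMem_support_iff.mp fun h => hx (hcfg.sub i hi h)
  have hqd : ∀ i, i < n → ∀ j, j < n → i ≠ j → ∀ x ∈ (q i).support, q j x = 0 := by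
    intro i hi j hj hij x hx
    exact Finsupp.notMem_support_iff.mp fun h =>
      (Finset.disjoint_left.mp (hcfg.dis i hi j hj hij)) hx h
  -- values on `W`
  have hgW : ∀ i, i < N → ∀ x ∈ W, gq (q u) φ i x = 0 := by
    intro i hi x hx
    exact hg0 i x fun h => hSn i hi x h (hWT i hi.le hx)
  have hbR : ∀ x ∈ R, b x = α * q u x := by
    intro x hx
    rw [hbx, sum_eq_zero, sum_eq_zero, zero_add, add_zero]
    · intro i hi
      rw [hgW i (mem_range.mp hi) x (hRW hx), mul_zero]
    · intro i hi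
      obtain ⟨h1, h2⟩ := mem_erase.mp hi
      rw [hqd u hu i (mem_range.mp h2) h1.symm x hx, mul_zero]
  have hbq : ∀ i, i < n → i ≠ u → ∀ x ∈ (q i).support, b x = c i * q i x := by
    intro i hi hiu x hx
    rw [hbx, sum_eq_single_of_mem i (mem_erase.mpr ⟨hiu, mem_range.mpr hi⟩),
      hqd i hi u hu hiu x hx, mul_zero, add_zero, sum_eq_zero, add_zero]
    · intro j hj
      rw [hgW j (mem_range.mp hj) x (hcfg.sub i hi hx), mul_zero]
    · intro j hj hji
      rw [hqd i hi j (mem_range.mp (mem_erase.mp hj).2) hji.symm x hx, mul_zero]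
  have hdis : ∀ i, i < N → ∀ j, j < N → i ≠ j → Disjoint (R.image (φ i)) (R.image (φ j)) := by
    have key : ∀ i j, i < j → j < N → Disjoint (R.image (φ i)) (R.image (φ j)) := by
      intro i j hij hj
      rw [Finset.disjoint_left]
      intro x hx hx'
      exact hSn j hj x hx' (hT (i + 1) j hij hj.le (hST i (by omega) hx))
    intro i hi j hj hij
    rcases lt_or_gt_of_ne hij with h | h
    · exact key i j h hj
    · exact (key j i h hi).symm
  have hbS : ∀ i, i < N → ∀ x ∈ R.image (φ i), b x = c' i * gq (q u) φ i x := by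
    intro i hi x hx
    have hxW : x ∉ W := fun h => hSn i hi x hx (hWT i hi.le h)
    rw [hbx, sum_eq_zero, hq0 u hu x hxW, mul_zero, add_zero, zero_add,
      sum_eq_single_of_mem i (mem_range.mpr hi)]
    · intro j hj hji
      rw [hg0 j x fun h => Finset.disjoint_left.mp
        (hdis j (mem_range.mp hj) i hi hji) h hx, mul_zero]
    · intro j hj
      rw [hq0 j (mem_range.mp (mem_erase.mp hj).2) x hxW, mul_zero]
  have hinj : ∀ i, i < N → Set.InjOn (φ i) (R : Set ℝ) := fun i hi =>
    (hmv.inj i hi).mono (by rw [coe_union]; exact Set.subset_union_left)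
  have hgsum : ∀ i, i < N → ∑ x ∈ R.image (φ i), |gq (q u) φ i x| = 1 := by
    intro i hi
    rw [sum_image (hinj i hi), ← sum_pb (hcfg.pb u hu)]
    refine sum_congr rfl fun r hr => ?_
    rw [gq, Finsupp.mapDomain_apply' (R : Set ℝ) (q u) subset_rfl (hinj i hi) hr]
  have hl1g : ∀ i, i < N → l1 (gq (q u) φ i) = 1 := fun i hi => by
    rw [l1_eq _ _ (hgs i), hgsum i hi]
  have hbsup : b.support ⊆ T N := by
    intro x hx
    by_contra hxT
    refine Finsupp.mem_support_iff.mp hx ?_
    have hxW : x ∉ W := fun h => hxT (hWT N le_rfl h)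
    rw [hbx, sum_eq_zero, hq0 u hu x hxW, mul_zero, sum_eq_zero, add_zero, add_zero]
    · intro j hj
      rw [hg0 j x fun h => hxT (hT (j + 1) N (mem_range.mp hj) le_rfl
        (hST j (mem_range.mp hj) h)), mul_zero]
    · intro j hj
      rw [hq0 j (mem_range.mp (mem_erase.mp hj).2) x hxW, mul_zero]
  have hgood : Good G Ψ (T N) := (gnd X G Ψ (T N) (hmv.gn N le_rfl)).1
  have hrho : rho Ψ (V G b) ≤ ‖V G b - Ψ z‖ := by
    rw [← dist_eq_norm]
    exact Metric.infDist_le_dist_of_mem ⟨z, rfl⟩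
  set S := ‖V G b - Ψ z‖ with hSdef
  have h1 : a / 2 * (|α| + ∑ i ∈ range N, |c' i|) ≤ S := by
    have hsub : (R ∪ (range N).biUnion fun i => R.image (φ i)) ⊆ T N := by
      refine union_subset (hRW.trans (hWT N le_rfl)) ?_
      refine biUnion_subset.mpr fun i hi => ?_
      exact (hST i (mem_range.mp hi)).trans (hT _ _ (mem_range.mp hi) le_rfl)
    have h := low X f F G Ψ hcrv (T N) hgood _ hsub a ha.le hmv.nC b hbsup
    have hd : Disjoint R ((range N).biUnion fun i => R.image (φ i)) := by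
      rw [Finset.disjoint_left]
      intro x hx hx'
      obtain ⟨i, hi, hxi⟩ := mem_biUnion.mp hx'
      exact hSn i (mem_range.mp hi) x hxi (hWT i (mem_range.mp hi).le (hRW hx))
    rw [sum_union hd, sum_biUnion] at h
    · have e1 : ∑ x ∈ R, |b x| = |α| := by
        rw [sum_congr rfl fun x hx => by rw [hbR x hx, abs_mul], ← mul_sum,
          sum_pb (hcfg.pb u hu), mul_one]
      have e2 : ∑ i ∈ range N, ∑ x ∈ R.image (φ i), |b x| = ∑ i ∈ range N, |c' i| := by
        refine sum_congr rfl fun i hi => ?_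
        rw [sum_congr rfl fun x hx => by rw [hbS i (mem_range.mp hi) x hx, abs_mul], ← mul_sum,
          hgsum i (mem_range.mp hi), mul_one]
      rw [e1, e2] at h
      exact h.trans hrho
    · intro i hi j hj hij
      exact hdis i (mem_range.mp hi) j (mem_range.mp hj) hij
  refine ⟨h1, ?_⟩
  have h2 : ∀ i ∈ (range n).erase u, |c i| ≤ 2 / a * S := by
    intro i hi
    obtain ⟨hiu, hin⟩ := mem_erase.mp hi
    have hin := mem_range.mp hin
    have h := low X f F G Ψ hcrv (T N) hgood _ ((hcfg.sub i hin).trans (hWT N le_rfl)) a ha.le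
      (hcfg.nr i hin) b hbsup
    rw [sum_congr rfl fun x hx => by rw [hbq i hin hiu x hx, abs_mul], ← mul_sum,
      sum_pb (hcfg.pb i hin), mul_one] at h
    have h := h.trans hrho
    rw [div_mul_eq_mul_div, le_div_iff₀ ha]
    linarith
  have h3 : |α| + ∑ i ∈ range N, |c' i| ≤ 2 / a * S := by
    rw [div_mul_eq_mul_div, le_div_iff₀ ha]
    linarith
  have h4 : ∑ i ∈ (range n).erase u, |c i| ≤ ((n : ℝ) - 1) * (2 / a * S) := by
    refine (sum_le_card_nsmul _ _ _ h2).trans (le_of_eq ?_)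
    rw [card_erase_of_mem (mem_range.mpr hu), card_range, nsmul_eq_mul,
      Nat.cast_sub (by omega), Nat.cast_one]
  have h5 : l1 (bo n u c q) ≤ ∑ i ∈ (range n).erase u, |c i| := by
    rw [bo]
    refine (l1_sum _ _).trans (sum_le_sum fun i hi => ?_)
    rw [l1_smul, l1_pb (hcfg.pb i (mem_range.mp (mem_erase.mp hi).2)), mul_one]
  have h6 : l1 b ≤ l1 (bo n u c q) + |α| + ∑ i ∈ range N, |c' i| := by
    rw [hb]
    refine (l1_add _ _).trans (add_le_add ((l1_add _ _).trans (add_le_add le_rfl ?_)) ?_)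
    · rw [l1_smul, l1_pb (hcfg.pb u hu), mul_one]
    · refine (l1_sum _ _).trans (sum_le_sum fun i hi => ?_)
      rw [l1_smul, hl1g i (mem_range.mp hi), mul_one]
  have h7 : ‖z‖ ≤ S + l1 b := by
    rw [← Ψ.norm_map z]
    have e : Ψ z = V G b - (V G b - Ψ z) := by abel
    rw [e]
    refine (norm_sub_le _ _).trans ?_
    have := norm_V hcrv.bdd b
    linarith
  have h8 : (1 + 4 * (n : ℝ) / a) * S = S + 2 * (n * (2 / a * S)) := by ring
  rw [h8]
  have h9 : (n : ℝ) * (2 / a * S) = ((n : ℝ) - 1) * (2 / a * S) + 2 / a * S := by ring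
  linarith

end Pool.Agent.NL.H40
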