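import Pool.Agent.NL.StmtsB

/-! Row CUG: the curves of the time `n` (helper40). -/

set_option autoImplicit false

open Filter Topology

noncomputable section

namespace Pool.Agent.NL.H40

open Pool.Agent Finset

theorem cw_mono (w : ℕ → ℕ → ℝ) (α : ℕ → ℝ) (n i : ℕ) {x y : ℝ} (h : x ≤ y) :
    cw w α n i x ≤ cw w α n i y :=
  max_le_max le_rfl (min_le_min (by linarith) le_rfl)

theorem cw_zero (w : ℕ → ℕ → ℝ) (α : ℕ → ℝ) (n i : ℕ) {x : ℝ} (h : x ≤ α i) :
    cw w α n i x = 0 :=
  max_eq_left ((min_le_left _ _).trans (by linarith))

theorem cw_full (w : ℕ → ℕ → ℝ) (α : ℕ → ℝ) (n i : ℕ) {x : ℝ} (h0 : 0 ≤ w n i)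
    (h : α i + w n i ≤ x) : cw w α n i x = w n i := by
  rw [cw, min_eq_right (by linarith), max_eq_right h0]

theorem cug : CugStmt := by
  intro X _ _ σ w Y M α hB hA hI n hn
  have hM : 0 ≤ M := (norm_nonneg _).trans (hB.bdd 1 0 one_pos)
  refine ⟨?_, ?_, ?_⟩
  · -- the Lipschitz bound
    have key : ∀ x x' : ℝ, x' ≤ x → ‖gg w α Y n x - gg w α Y n x'‖ ≤ M * |x - x'| := by
      intro x x' hx
      have e1 : gg w α Y n x - gg w α Y n x' =
          ∑ i ∈ range n, (cw w α n i x - cw w α n i x') • Y n i := by
        rw [gg, gg, ← sum_sub_distrib]
        refine sum_congr rfl fun i _ => ?_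
        rw [sub_smul]
      rw [e1]
      calc ‖∑ i ∈ range n, (cw w α n i x - cw w α n i x') • Y n i‖
          ≤ ∑ i ∈ range n, (cw w α n i x - cw w α n i x') * M := by
            refine norm_sum_le_of_le _ fun i hi => ?_
            have h0 : 0 ≤ cw w α n i x - cw w α n i x' := by
              have := cw_mono w α n i hx
              linarith
            rw [norm_smul, Real.norm_eq_abs, abs_of_nonneg h0]
            exact mul_le_mul_of_nonneg_left (hB.bdd n i (mem_range.mp hi)) h0
        _ = M * (max 0 (min x 1) - max 0 (min x' 1)) := by
            rw [← sum_mul, sum_sub_distrib, (hI n hn).2 x, (hI n hn).2 x', mul_comm]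
        _ ≤ M * |x - x'| := by
            refine mul_le_mul_of_nonneg_left ?_ hM
            rw [abs_of_nonneg (by linarith)]
            have h1 : max 0 (min x 1) ≤ max 0 (min x' 1) + (x - x') := by
              refine max_le ?_ ?_
              · have := le_max_left 0 (min x' 1)
                linarith
              · have h2 : min x 1 ≤ min x' 1 + (x - x') := by
                  rw [← min_add_add_right]
                  refine le_min ?_ ?_
                  · have := min_le_left x 1
                    linarith
                  · have := min_le_right x 1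
                    linarith
                have := le_max_right 0 (min x' 1)
                linarith
            linarith
    intro x x'
    rcases le_total x' x with h | h
    · exact key x x' h
    · rw [norm_sub_rev, abs_sub_comm]
      exact key x' x h
  · -- one step
    have step : ∀ (v : ℕ) (x : ℝ), 1 ≤ v → (∀ i, i < v → x ≤ α i ∨ α i + w v i ≤ x) →
        gg w α Y (v + 1) x = gg w α Y v x ∧
          ∀ i, i < v + 1 → x ≤ α i ∨ α i + w (v + 1) i ≤ x := by
      intro v x hv H
      have hs := hB.lt v hv
      have hw2 := hB.w2 v hv
      have hp1 := hB.pos (v + 1) (σ v) (by omega)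
      have hp2 := hB.pos (v + 1) v (by omega)
      have hp := hB.pos v (σ v) hs
      have hsuc := hA.suc v hv
      have hrest : ∑ i ∈ (range v).erase (σ v), cw w α (v + 1) i x • Y (v + 1) i =
          ∑ i ∈ (range v).erase (σ v), cw w α v i x • Y v i := by
        refine sum_congr rfl fun i hi => ?_
        obtain ⟨h1, h2⟩ := mem_erase.mp hi
        rw [hB.y1 v i (mem_range.mp h2) h1, cw, cw, hB.w1 v i (mem_range.mp h2) h1]
      have hmem : σ v ∈ range v := mem_range.mpr hs
      constructor
      · rw [gg, gg, sum_range_succ, ← add_sum_erase _ _ hmem, ← add_sum_erase _ _ hmem, hrest]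
        have : cw w α (v + 1) (σ v) x • Y (v + 1) (σ v) + cw w α (v + 1) v x • Y (v + 1) v =
            cw w α v (σ v) x • Y v (σ v) := by
          rcases H (σ v) hs with h | h
          · rw [cw_zero w α (v + 1) (σ v) h, cw_zero w α v (σ v) h,
              cw_zero w α (v + 1) v (by linarith)]
            simp
          · rw [cw_full w α v (σ v) hp.le h, cw_full w α (v + 1) (σ v) hp1.le (by linarith),
              cw_full w α (v + 1) v hp2.le (by linarith)]
            exact (hB.y2 v hv).symm
        rw [← this]
        abel
      · intro i hi
        by_cases h1 : i = v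
        · subst h1
          rcases H (σ i) hs with h | h
          · left
            linarith
          · right
            linarith
        · by_cases h2 : i = σ v
          · rw [h2]
            rcases H (σ v) hs with h | h
            · exact Or.inl h
            · right
              linarith
          · rw [hB.w1 v i (by omega) h2]
            exact H i (by omega)
    intro x H v hv
    have : gg w α Y v x = gg w α Y n x ∧ ∀ i, i < v → x ≤ α i ∨ α i + w v i ≤ x := by
      induction v, hv using Nat.le_induction with
      | base => exact ⟨rfl, H⟩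
      | succ v hv ih =>
        obtain ⟨h1, h2⟩ := step v x (by omega) ih.2
        exact ⟨h1.trans ih.1, h2⟩
    exact this.1
  · intro i hi
    have hp := hB.pos n i hi
    rw [gg, gg, ← sum_sub_distrib, sum_eq_single_of_mem i (mem_range.mpr hi)]
    · rw [cw_full w α n i hp.le le_rfl, cw_zero w α n i le_rfl, zero_smul, sub_zero]
    · intro j hj hne
      have hpj := hB.pos n j (mem_range.mp hj)
      rcases (hI n hn).1 i hi j (mem_range.mp hj) hne.symm with h | h
      · rw [cw_zero w α n j h, cw_zero w α n j (by linarith), sub_self]
      · rw [cw_full w α n j hpj.le (by linarith), cw_full w α n j hpj.le h, sub_self]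

end Pool.Agent.NL.H40
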